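import Pool.Agent.H.MP_6268b4_co.F4G2

/-!
MP_6268b4_co: classification of the finite chiral 4-polytopes of type `{p, q, r}`, `4 ∣ r`, in
which any two vertices lie on exactly one common edge.
-/

namespace Pool.Agent.Results.MP_6268b4_co.ChiralFour

open Pool.Agent.H.MP_6268b4_co

/-- A finite bounded poset is (for a suitable rank function) a chiral abstract 4-polytope in which
any two vertices lie on exactly one common edge and the number of facets containing an edge is
divisible by 4 if and only if it is isomorphic to the cross-ratio polytope `XR F ω` of a finite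
field `F` and an element `ω` whose order is divisible by 4 and whose powers include all nonzero
squares, where the order of `ω` is not 4 if `F` has 9 elements, or to the exceptional polytope `X6`
with 6 vertices. -/
theorem result (P : Type) [PartialOrder P] [BoundedOrder P] [Finite P] :
    (∃ rk : P → ℤ, IsPolytope 4 P rk ∧ IsChiral P ∧ SimpleComplete rk ∧ FourType rk) ↔
      (∃ (F : Type) (_ : Field F) (_ : Fintype F) (_ : DecidableEq F) (ω : F), XHyp ω ∧
        ¬ (Fintype.card F = 9 ∧ orderOf ω = 4) ∧ Nonempty (P ≃o XR F ω)) ∨
      Nonempty (P ≃o X6) := by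
  constructor
  · rintro ⟨rk, h, hC, hs, ho⟩
    exact four_forward h hC hs ho
  · rintro (⟨F, _, _, _, ω, hX, h9, ⟨f⟩⟩ | ⟨⟨f⟩⟩)
    · exact four_backward hX h9 f
    · exact four_backward' f

end Pool.Agent.Results.MP_6268b4_co.ChiralFour
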