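import Pool.Agent.H.MP_6268b4_co.FinC

/-!
MP_6268b4_co: classification of the finite chiral 4-polytopes of type `{p, q, r}`, `r` odd, in
which any two vertices lie on exactly one common edge.
-/

namespace Pool.Agent.Results.MP_6268b4_co.ChiralOdd

open Pool.Agent.H.MP_6268b4_co

/-- A finite bounded poset is (for a suitable rank function) a chiral abstract 4-polytope in which
any two vertices lie on exactly one common edge and every edge lies in an odd number of facets if
and only if it is isomorphic to the cross-ratio polytope of a finite field of characteristic 2 with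
at least 8 elements and a generator of its multiplicative group. -/
theorem result (P : Type) [PartialOrder P] [BoundedOrder P] [Finite P] :
    (∃ rk : P → ℤ, IsPolytope 4 P rk ∧ IsChiral P ∧ SimpleComplete rk ∧ OddType rk) ↔
      ∃ (F : Type) (_ : Field F) (_ : Fintype F) (_ : DecidableEq F) (ω : F), (2 : F) = 0 ∧
        8 ≤ Fintype.card F ∧ (∀ z : F, z ≠ 0 → ∃ i : ℕ, z = ω ^ i) ∧
          Nonempty (P ≃o CR F ω) := by
  constructor
  · rintro ⟨rk, h, hC, hs, ho⟩
    exact chiral_forward h hC hs ho
  · rintro ⟨F, _, _, _, ω, h2, h8, hω, ⟨f⟩⟩
    exact chiral_backward h2 h8 hω f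

end Pool.Agent.Results.MP_6268b4_co.ChiralOdd
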