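import Pool.Agent.H.MP_6268b4_co.FinR

/-!
MP_6268b4_co: classification of the finite regular 4-polytopes of type `{p, q, r}`, `r` odd, in
which any two vertices lie on exactly one common edge.
-/

namespace Pool.Agent.Results.MP_6268b4_co.RegularOdd

open Pool.Agent.H.MP_6268b4_co

/-- A finite bounded poset is (for a suitable rank function) a regular abstract 4-polytope in which
any two vertices lie on exactly one common edge and every edge lies in an odd number of facets if
and only if it is isomorphic to `{3, 2, r}` for an odd `r ≥ 3`, to the 4-simplex, or to the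
11-cell. -/
theorem result (P : Type*) [PartialOrder P] [BoundedOrder P] [Finite P] :
    (∃ rk : P → ℤ, IsPolytope 4 P rk ∧ IsRegular P ∧ SimpleComplete rk ∧ OddType rk) ↔
      (∃ r : ℕ, 3 ≤ r ∧ Odd r ∧ Nonempty (P ≃o M32 r)) ∨ Nonempty (P ≃o Finset (Fin 5)) ∨
        Nonempty (P ≃o ElevenCell) := by
  constructor
  · rintro ⟨rk, h, hR, hs, ho⟩
    exact regular_forward h hR hs ho
  · intro h
    exact regular_backward h

end Pool.Agent.Results.MP_6268b4_co.RegularOdd
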