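import Pool.Agent.H.MP_6268b4_co.UReg
import Pool.Agent.H.MP_6268b4_co.UProp

/-!
MP_6268b4_co: every finite regular polytope is the co-face of a neighborly finite regular polytope.
-/

namespace Pool.Agent.Results.MP_6268b4_co.Universality

open Pool.Agent.H.MP_6268b4_co

/-- For every finite regular abstract polytope `L` of rank `m` and every `K ≥ 1` there is a finite
regular abstract polytope `P` of rank `m + K + 1` whose vertices are `K + 1` more than those of `L`,
such that any `i + 1 ≤ K` vertices are the vertices of exactly one face of rank `i`, any `K + 1`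
vertices are the vertices of some face of rank `K`, the co-faces of the faces of rank `K` are
isomorphic to `L`, `P` has no digonal section if `L` has none, and the automorphism group of `P`
is the direct product of the symmetric group of the vertices and the automorphism group of `L`. -/
theorem result.{u} {L : Type u} [PartialOrder L] [BoundedOrder L] [Finite L] (rk : L → ℤ) (m K : ℕ)
    (hL : IsPolytope m L rk) (hR : IsRegular L) (hK : 1 ≤ K) :
    ∃ (P : Type u) (_ : PartialOrder P) (_ : BoundedOrder P) (r : P → ℤ),
      Finite P ∧ IsPolytope (m + K + 1) P r ∧ IsRegular P ∧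
      Nat.card {x : P // r x = 0} = Nat.card {v : L // rk v = 0} + K + 1 ∧
      (∀ S : Set P, (∀ x ∈ S, r x = 0) → 1 ≤ S.ncard → S.ncard ≤ K →
        ∃! F : P, r F = (S.ncard : ℤ) - 1 ∧ {x | r x = 0 ∧ x ≤ F} = S) ∧
      (∀ S : Set P, (∀ x ∈ S, r x = 0) → S.ncard = K + 1 →
        ∃ F : P, r F = K ∧ {x | r x = 0 ∧ x ≤ F} = S) ∧
      (∀ G : P, r G = K → Nonempty (Set.Ici G ≃o L)) ∧
      (NoDigon L rk → NoDigon P r) ∧
      Nonempty ((P ≃o P) ≃*
        Equiv.Perm (Fin (Nat.card {v : L // rk v = 0} + K + 1)) × (L ≃o L)) := by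
  refine ⟨UP L rk K (Nat.card {v : L // rk v = 0} + K + 1), inferInstance, inferInstance, UP.rkU,
    inferInstance, UP.isPolytope hL rfl, UP.regular hL hR rfl, UP.card_vertices hL hK,
    fun S hS h1 h2 => UP.neigh_unique hL hK S hS h1 h2,
    fun S hS h1 => UP.neigh_exists hL hK rfl S hS h1, fun G hG => UP.coface hL hG,
    fun hd => UP.noDigon hL hd rfl, UP.group_iso hL hR hK rfl⟩

end Pool.Agent.Results.MP_6268b4_co.Universality
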